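import Pool.Agent.T9h35.TA.Main
import Pool.Agent.T9h35.TA.Answers
import Pool.Agent.T9h35.SG.Slices

/-!
# CLIQUE on alternating slices

A slice is the set of all graphs with `n` vertices and with a prescribed number of edges.  On ONE
slice NOT gates are of no use: if there is a circuit of polynomial size that decides correctly, for
the graphs with exactly `m` edges, whether there is a clique with `k` vertices, then there is a
monotone one (Berkowitz, Valiant, Wegener).  So a superpolynomial lower bound for monotone circuits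
that are correct on one slice would separate NP from P/poly.

Here a circuit is tested on slices `y 0 < z 0 < y 1 < z 1 < ... < y (M - 1) < z (M - 1)`: it has to
accept all graphs with exactly `y i` edges that have a `k`-clique and to reject all graphs with
exactly `z i` edges that have none.  The gates of the circuit compute real numbers.  Gates of the
first kind are arbitrary nondecreasing real functions of at most `f` numbers (AND and OR gates and
the monotone real gates of Pudlák are the case `f = 2`).  The gates of the second kind are arbitrary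
Boolean functions of threshold tests (NOT gates are the case of one test); their number and the
numbers of their tests are not restricted, so that the theorem speaks about all circuits.

If consecutive slices are far enough from each other, then every circuit that passes the tests
changes the answers to the tests of its gates of the second kind on the way from the slice `y i` to
the slice `z i`, for every `i < M`: there are graphs `A 0 ≤ B 0 ≤ A 1 ≤ B 1 ≤ ... ≤ B (M - 1)` without
cliques of size `k` such that the answers differ on `A i` and `B i`.  With `t` gates of the second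
kind that have at most `d` tests each, this is possible at most `d * (2 ^ t - 1)` times.

Let `f = 2` and `b = 1`, and let `2 ^ L` bound the size.  The slices are far enough from each other
when the distances are at least `R`, which is `L ^ 2` up to logarithms of `L`, and all of them may be
used if `M * R ≤ w ^ 2`, where `n * w` is the number of edges by which the slices have to keep away
from both ends of the interesting interval.  For polynomial size and `w = n / 100`, say, there can be
`M = n ^ 2 / (log n) ^ (2 + o (1))` pairs of slices.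

For NOT gates (`d = 1`) the bound is `t ≥ log₂ (M + 1)`, and this is exact: a circuit of polynomial
size with AND gates, OR gates and `⌈log₂ (M + 1)⌉` NOT gates (Markov, Fischer) can compute from the
number of edges whether the graph lies on one of the slices `y i`, and accept exactly these graphs.
So it is not easier to pass the tests with the help of the clique structure than by counting the
edges, even with nondecreasing real gates of large fan-in.

The number `b` (the number of bits of the letters of the code which the cliques spell) trades the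
size of the circuits for the distance of the slices.  For `b = δ log₂ n` and `t = 0` the theorem
says that circuits that are correct on two suitable slices with `D ≥ k ^ 2 * n ^ ε` edges of
difference have size `n ^ (c * k)`, for all `k` between a constant and `n ^ (2 / 3 - ε)`, which is
optimal up to the constant `c = c (ε) > 0`.

Method: the graphs contain many small blocks, which form either a grid or a collection of stars; a
clique spells a codeword of a sparse linear code over a large alphabet in one block
(`Pool.Agent.T9h35.TX`), and circuits of nondecreasing real gates cannot distinguish codewords from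
negative inputs of a block, by the spread lemma of Alweiss, Lovász, Wu and Zhang.  Optional edges,
which are in no `k`-clique and which together with the other edges contain a Turán graph, are used
to adjust the number of edges (the design of `Pool.Agent.T9h36`, by helper36, for the case `M = 1`,
`t = 0`).  Block after block is filled with a negative input that is accepted by a circuit of
nondecreasing gates which detects whether the answers to the tests of the gates of the second kind
change.  In a grid of blocks (`Pool.Agent.T9h35.TA`) every block occupies the edges between two sets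
of vertices; in the star form (`Pool.Agent.T9h35.SG`) a block occupies edges at few vertices only,
so that the number of pairs of slices becomes larger by a factor of about `log` of the size; it needs
`R ≤ w`.
-/

set_option autoImplicit false

namespace Pool.Agent.Results.MP_0a1b52_lc.AlternatingSlices

open Pool.Agent.T9h34 (graphInput)
open Pool.Agent.T9h35.RW (Circuit)
open Pool.Agent.VC34 (numTests answers)

/-- The second alternative implies the hypothesis of the grid form. -/
theorem grid_width {M R U w : ℕ} (hM0 : 0 < M) (hR : 1 ≤ R) (hU : 1 ≤ U)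
    (h : M * (16 * R) * U ≤ w ^ 2) :
    ∃ p W, M ≤ p ^ 2 ∧ R * U ≤ W ^ 2 ∧ p * W ≤ w := by
  refine ⟨Nat.sqrt M + 1, w / (Nat.sqrt M + 1), ?_, ?_, Nat.mul_div_le _ _⟩
  · exact (Nat.lt_succ_sqrt' M).le
  · obtain ⟨p, hp⟩ : ∃ p, p = Nat.sqrt M + 1 := ⟨_, rfl⟩
    rw [← hp]
    have hs : 1 ≤ Nat.sqrt M := Nat.le_sqrt.2 (by omega)
    have h1 : p ^ 2 ≤ 4 * M := by
      have h2 : Nat.sqrt M ^ 2 ≤ M := Nat.sqrt_le' M
      have h3 : p ≤ 2 * Nat.sqrt M := by omega
      calc p ^ 2 ≤ (2 * Nat.sqrt M) ^ 2 := Nat.pow_le_pow_left h3 2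
        _ = 4 * Nat.sqrt M ^ 2 := by ring
        _ ≤ 4 * M := by omega
    have hp0 : 0 < p := by omega
    obtain ⟨W, hW⟩ : ∃ W, W = w / p := ⟨_, rfl⟩
    rw [← hW]
    have hlt : w < p * (W + 1) := by
      rw [hW]
      exact Nat.lt_mul_div_succ w hp0
    -- `(2 p)^2 R U ≤ w^2`
    have h4 : (2 * p) ^ 2 * (R * U) ≤ w ^ 2 := by
      calc (2 * p) ^ 2 * (R * U) = 4 * p ^ 2 * (R * U) := by ring
        _ ≤ 4 * (4 * M) * (R * U) :=
            Nat.mul_le_mul_right _ (Nat.mul_le_mul_left _ h1)
        _ = M * (16 * R) * U := by ring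
        _ ≤ w ^ 2 := h
    have hRU : 1 ≤ R * U := Nat.one_le_iff_ne_zero.2 (Nat.mul_ne_zero (by omega) (by omega))
    have h5 : 2 * p ≤ w := by
      by_contra hcon
      have h6 : w ^ 2 < (2 * p) ^ 2 := Nat.pow_lt_pow_left (by omega) (by norm_num)
      have h7 : (2 * p) ^ 2 * 1 ≤ (2 * p) ^ 2 * (R * U) := Nat.mul_le_mul_left _ hRU
      omega
    have hW1 : 1 ≤ W := by
      by_contra hcon
      have : W = 0 := by omega
      rw [this] at hlt
      omega
    have h8 : w ≤ 2 * p * W := by
      have : p * (W + 1) ≤ p * (2 * W) := Nat.mul_le_mul_left _ (by omega)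
      calc w ≤ p * (W + 1) := hlt.le
        _ ≤ p * (2 * W) := this
        _ = 2 * p * W := by ring
    have h9 : (2 * p) ^ 2 * (R * U) ≤ (2 * p) ^ 2 * W ^ 2 := by
      calc (2 * p) ^ 2 * (R * U) ≤ w ^ 2 := h4
        _ ≤ (2 * p * W) ^ 2 := Nat.pow_le_pow_left h8 2
        _ = (2 * p) ^ 2 * W ^ 2 := by ring
    exact Nat.le_of_mul_le_mul_left h9 (by positivity)

theorem result : ∃ K : ℕ, ∀ (n k M f L w b R : ℕ) (y z : ℕ → ℕ), 1 ≤ b → b ≤ L →
    R = K * L * (L + f) * (Nat.log 2 (L + f) + 1) ^ 5 * 2 ^ (5 * b) →
    (R ≤ w ∧ M * R ≤ w ^ 2) ∨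
      M * R * (L * (Nat.log 2 (L + f) + 1) ^ 2 * 2 ^ (4 * b)) ≤ w ^ 2 →
    K * L * (Nat.log 2 (L + f) + 1 + b) ^ 3 ≤ k * b ^ 4 →
    (∀ i < M, y i + R ≤ z i) → (∀ i, i + 1 < M → z i + R ≤ y (i + 1)) →
    (∀ i < M, k.choose 2 + n * w ≤ y i) →
    (∀ i < M, z i + n * w ≤ SimpleGraph.extremalNumber n (⊤ : SimpleGraph (Fin k))) →
    ∀ (d : ℕ) (C : Circuit (Fin n × Fin n)), C.FanIn f d → C.size + numTests C + 1 < 2 ^ L →
    (∀ i < M, ∀ G : SimpleGraph (Fin n), G.edgeSet.ncard = y i → ¬ G.CliqueFree k →
      C.eval (graphInput G) = true) →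
    (∀ i < M, ∀ G : SimpleGraph (Fin n), G.edgeSet.ncard = z i → G.CliqueFree k →
      C.eval (graphInput G) = false) →
    (∃ A B : ℕ → SimpleGraph (Fin n),
      (∀ i < M, A i ≤ B i) ∧ (∀ i, i + 1 < M → B i ≤ A (i + 1)) ∧
      (∀ i < M, (B i).CliqueFree k) ∧
      (∀ i < M, (A i).edgeSet.ncard < y i) ∧ (∀ i < M, (B i).edgeSet.ncard = z i) ∧
      ∀ i < M, answers C (graphInput (A i)) ≠ answers C (graphInput (B i))) ∧
    M ≤ d * (2 ^ C.numOther - 1) := by
  refine ⟨16 * 10 ^ 38, ?_⟩
  intro n k M f L w b R y z hb hbL hR hw hWk h3 h4 hy hz d C hd hs hpos hneg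
  rw [Pool.Agent.T9h35.TA.numTests_eq] at hs
  simp only [Pool.Agent.T9h35.TA.answers_eq]
  rcases Nat.eq_zero_or_pos M with hM0 | hM0
  · subst hM0
    refine ⟨⟨fun _ => ⊥, fun _ => ⊥, ?_, ?_, ?_, ?_, ?_, ?_⟩, Nat.zero_le _⟩ <;>
      intro i hi <;> omega
  have hL1 : 1 ≤ L := hb.trans hbL
  obtain ⟨l, hl⟩ : ∃ l, l = Nat.log 2 (L + f) + 1 := ⟨_, rfl⟩
  have hl1 : 1 ≤ l := by omega
  obtain ⟨R₀, hR₀⟩ : ∃ R₀, R₀ = 10 ^ 38 * L * (L + f) * l ^ 5 * 2 ^ (5 * b) := ⟨_, rfl⟩
  rw [← hl] at hR hw hWk
  have hRR : R = 16 * R₀ := by rw [hR, hR₀]; ring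
  have hR1 : 1 ≤ R₀ := by
    rw [hR₀]
    exact Nat.one_le_iff_ne_zero.2 (by positivity)
  have h3' : ∀ i < M, y i + R₀ ≤ z i := fun i hi => le_trans (by omega) (h3 i hi)
  have h4' : ∀ i, i + 1 < M → z i + R₀ ≤ y (i + 1) := fun i hi => le_trans (by omega) (h4 i hi)
  have hWk' : 10 ^ 38 * L * (l + b) ^ 3 ≤ k * b ^ 4 := by
    refine le_trans ?_ hWk
    exact Nat.mul_le_mul_right _ (Nat.mul_le_mul_right _ (by norm_num))
  have hpos' : ∀ i < M, ∀ G : SimpleGraph (Fin n), G.edgeSet.ncard = y i →
      (∃ c : Finset (Fin n), G.IsClique (c : Set (Fin n)) ∧ k ≤ c.card) →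
        C.eval (graphInput G) = true := by
    rintro i hi G hG ⟨c, hc, hkc⟩
    refine hpos i hi G hG ?_
    obtain ⟨c', hc', hcard⟩ := Finset.exists_subset_card_eq hkc
    intro hfree
    refine hfree c' ?_
    rw [SimpleGraph.isNClique_iff]
    exact ⟨hc.subset (by exact_mod_cast hc'), hcard⟩
  have hneg' : ∀ i < M, ∀ G : SimpleGraph (Fin n), G.edgeSet.ncard = z i →
      (¬ ∃ c : Finset (Fin n), G.IsClique (c : Set (Fin n)) ∧ k ≤ c.card) →
        ¬ C.eval (graphInput G) = true := by
    intro i hi G hG hno
    have : C.eval (graphInput G) = false := by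
      refine hneg i hi G hG ?_
      intro c hc
      rw [SimpleGraph.isNClique_iff] at hc
      exact hno ⟨c, hc.1, hc.2.ge⟩
    rw [this]
    simp
  have key : ∃ A B : ℕ → SimpleGraph (Fin n),
      (∀ i < M, A i ≤ B i) ∧ (∀ i, i + 1 < M → B i ≤ A (i + 1)) ∧
      (∀ i < M, ¬ ∃ c : Finset (Fin n), (B i).IsClique (c : Set (Fin n)) ∧ k ≤ c.card) ∧
      (∀ i < M, (A i).edgeSet.ncard < y i) ∧ (∀ i < M, (B i).edgeSet.ncard = z i) ∧
      ∀ i < M, C.reads (graphInput (A i)) ≠ C.reads (graphInput (B i)) := by
    rcases hw with ⟨hw1, hw2⟩ | hw2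
    · refine Pool.Agent.T9h35.SG.alt_star n k M f L w b y z hb hbL ?_ ?_ ?_ hM0 (hy 0 hM0)
        (hz (M - 1) (by omega)) ?_ ?_ C hd hs hpos' hneg'
      · rw [← hl, ← hR₀]
        omega
      · rw [← hl, ← hR₀]
        exact le_trans (Nat.mul_le_mul_left _ (by omega)) hw2
      · rw [← hl]
        exact hWk'
      · rw [← hl, ← hR₀]
        exact h3'
      · rw [← hl, ← hR₀]
        exact h4'
    · rw [hRR] at hw2
      obtain ⟨p, W, hp, hW, hpW⟩ := grid_width hM0 hR1
        (Nat.one_le_iff_ne_zero.2 (by positivity)) hw2
      refine Pool.Agent.T9h35.TA.alt_main n k M p f L W b y z hb hbL ?_ ?_ hM0 hp ?_ ?_ ?_ ?_ C hd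
        hs hpos' hneg'
      · rw [← hl]
        refine le_trans (le_of_eq ?_) hW
        rw [hR₀]
        ring
      · rw [← hl]
        exact hWk'
      · exact le_trans (Nat.add_le_add_left (Nat.mul_le_mul_left _ hpW) _) (hy 0 hM0)
      · exact le_trans (Nat.add_le_add_left (Nat.mul_le_mul_left _ hpW) _)
          (hz (M - 1) (by omega))
      · rw [← hl, ← hR₀]
        exact h3'
      · rw [← hl, ← hR₀]
        exact h4'
  obtain ⟨A, B, g1, g2, g3, g4, g5, g6⟩ := key
  refine ⟨⟨A, B, g1, g2, fun i hi c hc => ?_, g4, g5, g6⟩,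
    Pool.Agent.T9h35.TA.chain_bound C hd A B g1 g2 g6⟩
  rw [SimpleGraph.isNClique_iff] at hc
  exact g3 i hi ⟨c, hc.1, hc.2.ge⟩

end Pool.Agent.Results.MP_0a1b52_lc.AlternatingSlices
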