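import Pool.Agent.T9h16.GapParam

/-!
# Circuits with few negations cannot approximate the clique number, even on average

For `a < b` there are a distribution on graphs with a clique of `b` vertices and a distribution on
graphs without a clique of `a + 1` vertices such that every circuit of size `s` with few NOT gates
has almost no advantage in telling them apart.

With `L = log₂ (n + s + q) + 1` the advantage is at most
`1 / q + 2 ^ 20 * (L * (b - a + q L ^ 3) / (n - a)) ^ 2 * ∏ (t_ℓ + 1)`, where `t_ℓ` is the number of NOT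
gates of inversion level `ℓ`, provided that `2 ^ 16 * q * L ^ 4 * b * (b - a + q L ^ 3) ≤ a (n - a)`;
without this condition the same holds with the exponent `1` instead of `2`.
-/

set_option autoImplicit false

namespace Pool.Agent.Results.MP_0a1b52_lc.GapOnAverage

open Finset
open scoped Classical

/-- A Boolean circuit whose inputs are the pairs of vertices `{u, v}`, `u < v`, of a graph on
`0, ..., n - 1`.  Gate `i`, `i < size`, is an AND gate if `kind i = 0`, an OR gate if `kind i = 1`
(with operands `left i`, `right i`) and a NOT gate if `kind i = 2` (with operand `left i`); operands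
are inputs or gates of smaller number. -/
structure Circuit (n : ℕ) where
  size : ℕ
  kind : Fin size → Fin 3
  left : Fin size → {p : Fin n × Fin n // p.1 < p.2} ⊕ Fin size
  right : Fin size → {p : Fin n × Fin n // p.1 < p.2} ⊕ Fin size
  out : Fin size
  acyclic : ∀ i j, (left i = Sum.inr j → j < i) ∧ (right i = Sum.inr j → j < i)

/-- The value of an input (`x e`: is the pair `e` an edge?) or of a gate. -/
def value {n s : ℕ} (G : SimpleGraph (Fin n)) (v : Fin s → Prop) :
    {p : Fin n × Fin n // p.1 < p.2} ⊕ Fin s → Prop :=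
  Sum.elim (fun e => G.Adj e.1.1 e.1.2) v

/-- `v` lists the values of the gates on the graph `G`. -/
def Run {n : ℕ} (C : Circuit n) (G : SimpleGraph (Fin n)) (v : Fin C.size → Prop) : Prop :=
  ∀ i, v i ↔
    ((C.kind i = 0 ∧ (value G v (C.left i) ∧ value G v (C.right i))) ∨
     (C.kind i = 1 ∧ (value G v (C.left i) ∨ value G v (C.right i))) ∨
     (C.kind i = 2 ∧ ¬ value G v (C.left i)))

/-- The circuit accepts the graph `G`. -/
def Accepts {n : ℕ} (C : Circuit n) (G : SimpleGraph (Fin n)) : Prop :=
  ∃ v, Run C G v ∧ v C.out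

/-- `lev` assigns inversion levels `0, ..., d` to the gates: the level does not decrease from an
operand to a gate, and it strictly increases at NOT gates. -/
def IsLevel {n : ℕ} (C : Circuit n) (lev : Fin C.size → ℕ) (d : ℕ) : Prop :=
  ∀ i j : Fin C.size, (C.left i = Sum.inr j → lev j ≤ lev i) ∧
    (C.kind i ≠ 2 → C.right i = Sum.inr j → lev j ≤ lev i) ∧
    (C.kind i = 2 → C.left i = Sum.inr j → lev j < lev i) ∧
    (C.kind i = 2 → lev i ≤ d)

/-- The product over the levels `ℓ = 0, ..., d` of the number of NOT gates of level `ℓ` plus one.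
(If every NOT gate has its own level, this is `2 ^ t` for `t` NOT gates.) -/
noncomputable def levelProduct {n : ℕ} (C : Circuit n) (lev : Fin C.size → ℕ) (d : ℕ) : ℕ :=
  ∏ ℓ ∈ range (d + 1), ((univ.filter fun i => C.kind i = 2 ∧ lev i = ℓ).card + 1)

open Pool.Agent.T9h16

/-- Translation to the circuits of the library. -/
def toCirc {n : ℕ} (C : Circuit n) : Circ (PairV n) where
  size := C.size
  kind := fun i => if C.kind i = 0 then .conj else if C.kind i = 1 then .disj else .neg
  left := C.left
  right := C.right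
  out := C.out
  acyclic := C.acyclic

theorem toCirc_neg {n : ℕ} (C : Circuit n) (i : Fin C.size) :
    (toCirc C).kind i = .neg ↔ C.kind i = 2 := by
  change (if C.kind i = 0 then Kind.conj else if C.kind i = 1 then Kind.disj else Kind.neg) =
    Kind.neg ↔ _
  generalize C.kind i = k
  fin_cases k <;> simp

theorem toCirc_run {n : ℕ} {C : Circuit n} {G : SimpleGraph (Fin n)} {v : Fin C.size → Prop} :
    (toCirc C).Run (gin G) v ↔ Run C G v := by
  apply forall_congr'
  intro i
  apply iff_congr Iff.rfl
  change (match (if C.kind i = 0 then Kind.conj else if C.kind i = 1 then Kind.disj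
    else Kind.neg) with
    | .conj => value G v (C.left i) ∧ value G v (C.right i)
    | .disj => value G v (C.left i) ∨ value G v (C.right i)
    | .neg => ¬ value G v (C.left i)) ↔ _
  generalize C.kind i = k
  fin_cases k <;> simp

theorem exists_run {n : ℕ} (C : Circuit n) (G : SimpleGraph (Fin n)) : ∃ v, Run C G v := by
  obtain ⟨v, hv⟩ := exists_solution (s := C.size) (fun v i =>
    (C.kind i = 0 ∧ (value G v (C.left i) ∧ value G v (C.right i))) ∨
     (C.kind i = 1 ∧ (value G v (C.left i) ∨ value G v (C.right i))) ∨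
     (C.kind i = 2 ∧ ¬ value G v (C.left i))) (by
    intro v v' i h
    have h1 : value G v (C.left i) ↔ value G v' (C.left i) :=
      elim_congr _ (C.left i) (fun j hj => (C.acyclic i j).1 hj) h
    have h2 : value G v (C.right i) ↔ value G v' (C.right i) :=
      elim_congr _ (C.right i) (fun j hj => (C.acyclic i j).2 hj) h
    simp only [h1, h2])
  exact ⟨v, hv⟩

theorem run_unique {n : ℕ} {C : Circuit n} {G : SimpleGraph (Fin n)} {v v' : Fin C.size → Prop}
    (h : Run C G v) (h' : Run C G v') : v = v' := by
  funext i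
  apply propext
  induction i using WellFoundedLT.induction with
  | ind i ih =>
    have h1 : value G v (C.left i) ↔ value G v' (C.left i) :=
      elim_congr _ (C.left i) (fun j hj => (C.acyclic i j).1 hj) ih
    have h2 : value G v (C.right i) ↔ value G v' (C.right i) :=
      elim_congr _ (C.right i) (fun j hj => (C.acyclic i j).2 hj) ih
    rw [h i, h' i, h1, h2]

/-- Let `L = log₂ (n + s + q) + 1` (rounded down), `32 q L ^ 3 ≤ a < b ≤ n`, and let `i = 1`, or
`i = 2` and `2 ^ 16 q L ^ 4 b (b - a + q L ^ 3) ≤ a (n - a)`.  Then there are two families `G ω`, `H ω`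
of graphs on `n` vertices such that every `G ω` has a clique with `b` vertices, no `H ω` has a clique
with `a + 1` vertices, and for every circuit with at most `s` gates
`P[C accepts G ω] + P[C rejects H ω] ≤ 1 + 1 / q + 2 ^ 20 (L (b - a + q L ^ 3) / (n - a)) ^ i ∏ (t_ℓ + 1)`,
where `t_ℓ` is the number of NOT gates of inversion level `ℓ`. -/
theorem result (n a b s q L i : ℕ) (hq : 1 ≤ q) (hL : L = Nat.log 2 (n + s + q) + 1)
    (ha : 32 * q * L ^ 3 ≤ a) (hab : a < b) (hbn : b ≤ n)
    (hi : i = 1 ∨ (i = 2 ∧ 2 ^ 16 * q * L ^ 4 * b * (b - a + q * L ^ 3) ≤ a * (n - a))) :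
    ∃ (Ω : Type) (_ : Fintype Ω) (_ : Nonempty Ω) (G H : Ω → SimpleGraph (Fin n)),
      (∀ ω, ¬ (G ω).CliqueFree b) ∧ (∀ ω, (H ω).CliqueFree (a + 1)) ∧
      ∀ C : Circuit n, C.size ≤ s → ∀ (lev : Fin C.size → ℕ) (d : ℕ), IsLevel C lev d →
        ((univ.filter fun ω => Accepts C (G ω)).card : ℝ) +
          ((univ.filter fun ω => ¬ Accepts C (H ω)).card : ℝ) ≤
        (1 + 1 / q + 2 ^ 20 * (L * ((b : ℝ) - a + q * (L : ℝ) ^ 3) / ((n : ℝ) - a)) ^ i *
          levelProduct C lev d) * Fintype.card Ω := by
  obtain ⟨Ω, i1, i2, Gp, Gm, h1, h2, h3⟩ := gap_main n a b s q L i hq hL ha hab hbn hi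
  refine ⟨Ω, i1, i2, Gp, Gm, ?_, ?_, ?_⟩
  · intro ω hfree
    obtain ⟨c, hc, hcard⟩ := h1 ω
    obtain ⟨t, htc, ht⟩ := exists_subset_card_eq hcard
    exact hfree t ⟨hc.subset (coe_subset.2 htc), ht⟩
  · intro ω t ht
    have := h2 ω t ht.isClique
    rw [ht.card_eq] at this
    omega
  · intro C hs lev d hlev
    choose val hval using exists_run C
    have hacc : ∀ G, Accepts C G ↔ val G C.out := by
      intro G
      constructor
      · rintro ⟨v, hv, ho⟩
        rwa [run_unique hv (hval G)] at ho
      · exact fun h => ⟨_, hval G, h⟩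
    have h4 := h3 (toCirc C) hs val (fun G => toCirc_run.2 (hval G)) lev
      (fun i j => ⟨(hlev i j).1, fun hk => (hlev i j).2.1 fun h => hk ((toCirc_neg C i).2 h)⟩)
      (fun i j hk => (hlev i j).2.2.1 ((toCirc_neg C i).1 hk)) d
      (fun i hk => (hlev i i).2.2.2 ((toCirc_neg C i).1 hk))
    have e1 : (univ.filter fun ω => Accepts C (Gp ω)).card =
        (univ.filter fun ω => val (Gp ω) (toCirc C).out).card :=
      fcc _ fun ω _ => hacc _
    have e2 : (univ.filter fun ω => ¬ Accepts C (Gm ω)).card =
        (univ.filter fun ω => ¬ val (Gm ω) (toCirc C).out).card :=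
      fcc _ fun ω _ => not_congr (hacc _)
    have e3 : levelProduct C lev d = ∏ ℓ ∈ range (d + 1),
        ((univ.filter fun i => (toCirc C).kind i = .neg ∧ lev i = ℓ).card + 1) := by
      apply prod_congr rfl
      intro ℓ _
      congr 1
      exact fcc _ fun i _ => and_congr_left' (toCirc_neg C i).symm
    rw [e1, e2, e3, ← Nat.cast_add]
    refine (le_of_eq ?_).trans (h4.trans (le_of_eq ?_))
    · apply congrArg
      apply congrArg₂
      · exact fcc _ fun ω _ => Iff.rfl
      · exact fcc _ fun ω _ => Iff.rfl
    · apply congrArg (fun x : ℝ => x * (Fintype.card Ω : ℝ))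
      apply congrArg (fun x : ℝ => 1 + 1 / (q : ℝ) + x)
      apply congrArg (fun x : ℕ =>
        2 ^ 20 * (L * ((b : ℝ) - a + q * (L : ℝ) ^ 3) / ((n : ℝ) - a)) ^ i * (x : ℝ))
      apply prod_congr rfl
      intro ℓ _
      apply congrArg (fun x : ℕ => x + 1)
      exact fcc _ fun i _ => Iff.rfl

end Pool.Agent.Results.MP_0a1b52_lc.GapOnAverage
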