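import Pool.Agent.T9h16.Neg.Main

/-!
# Witness bits and negated facts in circuits for the clique function

The input consists of `M` graphs with `n` vertices; the question is whether each of them has a clique
with `k` vertices. For `M = 1` this is the clique function; for larger `M` it is the conjunction of
`M` clique functions, which has circuits of polynomial size if the clique function has. We study
disjunctions of circuits `D u`, one for each witness `u`. There are two extreme ways to decide the
question in this form in polynomial size:
* guess the cliques: `M * log (binomial n k)` witness bits, and the circuits `D u` are monotone;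
* if the clique function has circuits of polynomial size: no witness bits, and the single circuit
  has negated variables.

The theorem says that the second way must use almost as many negated facts as the first way uses
witness bits. Here the circuits `D u` are arbitrary circuits of AND and OR gates with negated
variables, which is no restriction for Boolean circuits of polynomial size. A circuit accepts an
input `x` using the set `Q` of negated facts if its output is still 1 when a negated variable counts
as 1 only if it belongs to `Q` (this is finer than the negation width of Jukna and Lingas). Each
circuit has to be sound: it accepts only if all `M` graphs have a clique with `k` vertices.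

The number of tuples `(S 0, …, S (M-1))` of sets of `k` vertices for which some `D u` accepts the
cliques on these sets using a set of negated facts which has at most `q` elements in at least
`m` of the `M` graphs, is at most `|U| * binomial M m * n ^ (2 q m) * (binomial n k) ^ (M - (1 - ε) m)`.

Consequences.
1. `M = m = 1`, `q = 0`: disjunctions of sound monotone circuits of polynomial size need
   `(binomial n k) ^ (1 - ε)` circuits, so exhaustive search is optimal. For `k ≤ n ^ (1 - δ)` (for
   instance the least `k > √n`, as in the problem) and `q ≤ c k`, where `c` depends on `δ` and `ε`,
   the same is true with `q` negated facts.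
2. `M = 1`, one circuit of polynomial size, `k = n / (log n) ^ C`: it has to use more than
   `n / (log n) ^ (C + 1)` negated facts for almost all cliques.
3. Let `N = M * binomial n 2` be the number of variables, `n = (log N) ^ C` and
   `k = n ^ (1 / 2)`. If a disjunction of circuits of size polynomial in `N` decides the problem,
   then there are at least `N / (log N) ^ O(1)` witness bits, or for most tuples of cliques the circuits
   use at least `N / (log N) ^ O(1)` negated facts: take `m = M / 2` and `q = c k`; if fewer than
   `M q / 2` facts are used then at most `q` facts are used in at least `M / 2` of the graphs.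
   In particular each circuit of polynomial size uses that many negated facts.

Method. Fix the circuit, the facts (at most `q` in each of the `m` graphs) and the cliques in the
other `M - m` graphs. In all of the `m` graphs but one insert the complete graph without the edges
which are assumed to be absent. The circuit becomes monotone, and it stays sound for the remaining
graph, where it finds at most `(binomial n k) ^ ε` cliques by the theorem on exhaustive search
(`Pool.Agent.T9h35.Sharp`, robust sunflowers for random colourings). By monotonicity the found tuples
lie in the product of these `m` sets.
-/

set_option autoImplicit false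

namespace Pool.Agent.Results.MP_0a1b52_lc.NegatedFacts

open Pool.Agent.T9h16.Neg

/-- For every `ε > 0` there is `K > 0` such that the following holds for all `M, n, k, m, q, e`
with `e > 0`, `K e ≤ k` and `(K e) ^ K ≤ n / k` (rounded down). Let `D u`, where `u` runs through a
finite set `U`, be de Morgan circuits on the edge variables of `M` graphs with `n` vertices, each
with at most `(n / k) ^ e` gates, and each of which accepts only if all `M` graphs have a clique with
at least `k` vertices. Then the number of tuples `S` of `M` sets with `k` elements such that
one of the circuits accepts the cliques on the sets `S a` using a set `Q` of negated facts, where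
`Q` has at most `q` elements in at least `m` of the `M` graphs, is at most
`|U| * binomial M m * n ^ (2 q m) * (binomial n k) ^ (M - m + ε m)`. -/
theorem result (ε : ℝ) (hε : 0 < ε) :
    ∃ K : ℕ, 0 < K ∧ ∀ (U : Type) [Fintype U] (M n k e m q : ℕ)
      (D : U → Circuit (Fin M × Sym2 (Fin n))),
      0 < e → K * e ≤ k → (K * e) ^ K ≤ n / k →
      (∀ u, (D u).size ≤ (n / k) ^ e) →
      (∀ u (G : Fin M → SimpleGraph (Fin n)), (D u).Accepts (input G) →
        ∀ a, ∃ c : Finset (Fin n), (G a).IsClique (c : Set (Fin n)) ∧ k ≤ c.card) →
      ({S : Fin M → Finset (Fin n) | (∀ a, (S a).card = k) ∧
        ∃ u, ∃ Q : Set (Fin M × Sym2 (Fin n)),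
          (D u).AcceptsUsing (input fun a => cliqueOn (S a)) Q ∧
          m ≤ {a | {e | (a, e) ∈ Q}.ncard ≤ q}.ncard}.ncard : ℝ) ≤
        (Fintype.card U : ℝ) * (M.choose m : ℝ) * (n : ℝ) ^ (2 * q * m) *
          (n.choose k : ℝ) ^ ((M : ℝ) - m + ε * m) := by
  classical
  obtain ⟨K, hK0, hK⟩ := main ε hε
  refine ⟨K, hK0, ?_⟩
  intro U _ M n k e m q D he hek hew hD hcl
  have h := hK U M n k e m q D he hek hew hD hcl
  have h1 : ((n : ℝ) ^ 2) ^ (q * m) = (n : ℝ) ^ (2 * q * m) := by
    rw [← pow_mul, mul_assoc]
  rw [h1] at h
  refine le_trans ?_ h
  refine Nat.cast_le.2 (Set.ncard_le_ncard ?_ (Set.toFinite _))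
  rintro S ⟨hS, u, Q, hQ, hm⟩
  refine ⟨hS, u, Q.toFinite.toFinset, ?_, ?_⟩
  · rw [Set.Finite.coe_toFinset]
    exact hQ
  · refine hm.trans (le_of_eq ?_)
    congr 1
    ext a
    rw [Set.mem_setOf_eq, Set.mem_setOf_eq]
    have h2 : {e | (a, e) ∈ Q}.ncard =
        (Q.toFinite.toFinset.filter fun p => p.1 = a).card := by
      rw [← Set.ncard_coe_finset]
      refine Set.ncard_congr (fun e _ => (a, e)) ?_ ?_ ?_
      · intro e he'
        simp only [Finset.coe_filter, Set.mem_setOf_eq, Set.Finite.mem_toFinset, and_true]
        exact he'
      · intro e e' _ _ h
        exact (Prod.mk.inj h).2
      · rintro ⟨b, e⟩ hbe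
        simp only [Finset.coe_filter, Set.mem_setOf_eq, Set.Finite.mem_toFinset] at hbe
        obtain ⟨h3, h4⟩ := hbe
        subst h4
        exact ⟨e, h3, rfl⟩
    rw [h2]

end Pool.Agent.Results.MP_0a1b52_lc.NegatedFacts
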