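import Pool.Agent.T9h35.WS.Final

/-!
# Circuit size, NOT gates and witness bits

A family of Boolean circuits `D u`, each of which accepts a tuple of `M` graphs with `n` vertices only
if all `M` graphs have a clique of size `k`. The circuits consist of AND and OR gates of fan-in two
and of further gates (for example NOT gates), which may compute arbitrary functions of any number of
values. The circuit `D u` finds the tuple `S` of `k`-sets if it accepts all tuples of graphs in which
the sets in `S` are cliques (a circuit which decides the clique problem finds all of them).

For every `u` there is a chain of no-instances along which the values read by the further gates of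
`D u` change `m u` times, such that for every `j` between `3` and `k` the fraction of the tuples found
by the family is at most
`∑ u, (size of D u * (max 1 ((m u + 1) / J)) ^ (j / 2) / (n - k + j).choose j ^ (1 - ε)) ^ M`
for `J = 1`, and also for `J = j ^ 2` if `j ≤ (n - k + j) ^ (1 - ε)`. Here `m u + 1 ≤ 2 ^ t` if `D u`
has `t` NOT gates.

So if every `k`-set, `k ≤ n ^ (1 - δ)`, is found by one of `q` circuits of size `s` with `t` NOT gates
each, then `log q + log s + (k / 2) * max 0 (t - 2 log k) ≥ (1 - ε) log (n.choose k)`. This is optimal
for all `k` and `t` if NP is contained in P/poly: cover all `k`-sets by about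
`n.choose k / w.choose k` sets of size `w = 2 ^ (t / 2)`, and decide for one of these sets `W` whether
there is a clique of size `k` in `W`, with `2 log w` NOT gates (Markov, Fischer).  In particular
a circuit of size `(n.choose k) ^ ε` needs `(2 - ε') log n` NOT gates.

The proof for small `j` cuts the clique into blocks of about `log s` parts. In one block, the family
of the transversals which are found is restricted to a spread link (if at most two parts are free,
then the circuit reads a variable for each of its members); a random colouring makes a constant
fraction of about `R` edge disjoint complete multipartite blocks without triangles of blocks rich,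
and these are filled one after the other; each step changes the values read by the further gates, or
is done by a small monotone circuit, which is excluded by the approximation method with robust
sunflowers. For large `j` (by helper36) the parts are found in rounds, each round fixing a constant
fraction of the vertices of the clique.
-/

set_option autoImplicit false

namespace Pool.Agent.Results.MP_0a1b52_lc.WitnessesAndNegations

open Pool.Agent.T9h34 (Circuit Pair)
open Pool.Agent.T9h35.WS (adjacency FindsTuple)

theorem result (ε : ℝ) (hε : 0 < ε) : ∃ K : ℕ, 0 < K ∧
    ∀ (U : Type) [Fintype U] (M n k : ℕ) (D : U → Circuit (Fin M × Pair n)), 1 ≤ M → 2 ≤ k →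
    (∀ u (G : Fin M → SimpleGraph (Fin n)), (D u).eval (adjacency G) = true →
      ∀ a, ¬ (G a).CliqueFree k) →
    ∃ (m : U → ℕ) (G : U → ℕ → Fin M → SimpleGraph (Fin n)),
      (∀ u i, G u i ≤ G u (i + 1)) ∧ (∀ u i, ∃ a, (G u i a).CliqueFree k) ∧
      (∀ u, ∀ i < m u, (D u).reads (adjacency (G u i)) ≠
        (D u).reads (adjacency (G u (i + 1)))) ∧
      (∀ u, m u + 1 ≤ ((D u).gates.map fun g => g.args.length + 1).prod) ∧
      ∀ j J : ℕ, 3 ≤ j → j ≤ k → k ≤ n →
      (J = 1 ∨ J = j ^ 2 ∧ (j : ℝ) ≤ ((n - k + j : ℕ) : ℝ) ^ (1 - ε)) →
      (∀ u, (K * (Nat.log 2 ((D u).size + (D u).numReads + 1) + 1)) ^ K ≤ (n - k + j) / j) →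
      ({S : Fin M → Finset (Fin n) | (∀ a, (S a).card = k) ∧
          ∃ u, FindsTuple (D u) S}.ncard : ℝ) ≤
        (∑ u, (((D u).size + (D u).numReads + 1 : ℕ) *
          (max 1 (((m u + 1 : ℕ) : ℝ) / J)) ^ ((j : ℝ) / 2) /
            ((n - k + j).choose j : ℝ) ^ (1 - ε)) ^ M) * (n.choose k : ℝ) ^ M :=
  Pool.Agent.T9h35.WS.final ε hε

end Pool.Agent.Results.MP_0a1b52_lc.WitnessesAndNegations
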